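import Mathlib

set_option autoImplicit false

/-!
# Covering a hexagon with sides parallel to the unit hexagon by three unit hexagons

`u0 + u1 + u2 = 0`; the unit hexagon is `|u_i| ≤ 1`; its translates are
`a_i ≤ u_i ≤ a_i + 2`, `a_0 + a_1 + a_2 = -3`.
-/

namespace H56NH

/-- Depth form: the hexagon `0 ≤ v_i ≤ W_i`, `v_0 + v_1 + v_2 = m`, is covered by three unit
hexagons `a_i ≤ v_i ≤ a_i + 2`, `a_0 + a_1 + a_2 = m - 3`. -/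
def Dep (m W0 W1 W2 : ℝ) : Prop :=
  ∃ a0 a1 a2 b0 b1 b2 c0 c1 c2 : ℝ,
    a0 + a1 + a2 = m - 3 ∧ b0 + b1 + b2 = m - 3 ∧ c0 + c1 + c2 = m - 3 ∧
    ∀ v0 v1 v2 : ℝ, v0 + v1 + v2 = m → 0 ≤ v0 → v0 ≤ W0 → 0 ≤ v1 → v1 ≤ W1 → 0 ≤ v2 → v2 ≤ W2 →
      (a0 ≤ v0 ∧ v0 ≤ a0 + 2 ∧ a1 ≤ v1 ∧ v1 ≤ a1 + 2 ∧ a2 ≤ v2 ∧ v2 ≤ a2 + 2) ∨
      (b0 ≤ v0 ∧ v0 ≤ b0 + 2 ∧ b1 ≤ v1 ∧ v1 ≤ b1 + 2 ∧ b2 ≤ v2 ∧ v2 ≤ b2 + 2) ∨
      (c0 ≤ v0 ∧ v0 ≤ c0 + 2 ∧ c1 ≤ v1 ∧ v1 ≤ c1 + 2 ∧ c2 ≤ v2 ∧ v2 ≤ c2 + 2)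

theorem Dep.swap {m W0 W1 W2 : ℝ} (h : Dep m W0 W1 W2) : Dep m W1 W0 W2 := by
  obtain ⟨a0, a1, a2, b0, b1, b2, c0, c1, c2, ha, hb, hc, h⟩ := h
  refine ⟨a1, a0, a2, b1, b0, b2, c1, c0, c2, by linarith, by linarith, by linarith, ?_⟩
  intro v0 v1 v2 hs p0 q0 p1 q1 p2 q2
  rcases h v1 v0 v2 (by linarith) p1 q1 p0 q0 p2 q2 with t | t | t
  · exact Or.inl ⟨t.2.2.1, t.2.2.2.1, t.1, t.2.1, t.2.2.2.2.1, t.2.2.2.2.2⟩
  · exact Or.inr (Or.inl ⟨t.2.2.1, t.2.2.2.1, t.1, t.2.1, t.2.2.2.2.1, t.2.2.2.2.2⟩)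
  · exact Or.inr (Or.inr ⟨t.2.2.1, t.2.2.2.1, t.1, t.2.1, t.2.2.2.2.1, t.2.2.2.2.2⟩)

theorem Dep.rot {m W0 W1 W2 : ℝ} (h : Dep m W0 W1 W2) : Dep m W1 W2 W0 := by
  obtain ⟨a0, a1, a2, b0, b1, b2, c0, c1, c2, ha, hb, hc, h⟩ := h
  refine ⟨a1, a2, a0, b1, b2, b0, c1, c2, c0, by linarith, by linarith, by linarith, ?_⟩
  intro v1 v2 v0 hs p1 q1 p2 q2 p0 q0
  rcases h v0 v1 v2 (by linarith) p0 q0 p1 q1 p2 q2 with t | t | t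
  · exact Or.inl ⟨t.2.2.1, t.2.2.2.1, t.2.2.2.2.1, t.2.2.2.2.2, t.1, t.2.1⟩
  · exact Or.inr (Or.inl ⟨t.2.2.1, t.2.2.2.1, t.2.2.2.2.1, t.2.2.2.2.2, t.1, t.2.1⟩)
  · exact Or.inr (Or.inr ⟨t.2.2.1, t.2.2.2.1, t.2.2.2.2.1, t.2.2.2.2.2, t.1, t.2.1⟩)

/-- The mirror image: `v_i ↦ W_i - v_i`. -/
theorem Dep.mirror {m W0 W1 W2 : ℝ} (h : Dep (W0 + W1 + W2 - m) W0 W1 W2) : Dep m W0 W1 W2 := by
  obtain ⟨a0, a1, a2, b0, b1, b2, c0, c1, c2, ha, hb, hc, h⟩ := h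
  refine ⟨W0 - a0 - 2, W1 - a1 - 2, W2 - a2 - 2, W0 - b0 - 2, W1 - b1 - 2, W2 - b2 - 2,
    W0 - c0 - 2, W1 - c1 - 2, W2 - c2 - 2, by linarith, by linarith, by linarith, ?_⟩
  intro v0 v1 v2 hs p0 q0 p1 q1 p2 q2
  rcases h (W0 - v0) (W1 - v1) (W2 - v2) (by linarith) (by linarith) (by linarith) (by linarith)
    (by linarith) (by linarith) (by linarith) with ⟨t1, t2, t3, t4, t5, t6⟩ |
      ⟨t1, t2, t3, t4, t5, t6⟩ | ⟨t1, t2, t3, t4, t5, t6⟩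
  · refine Or.inl ⟨?_, ?_, ?_, ?_, ?_, ?_⟩ <;> linarith
  · refine Or.inr (Or.inl ⟨?_, ?_, ?_, ?_, ?_, ?_⟩) <;> linarith
  · refine Or.inr (Or.inr ⟨?_, ?_, ?_, ?_, ?_, ?_⟩) <;> linarith

/-- Three numbers in given intervals with a given sum. -/
theorem exists_sum {l0 l1 l2 r0 r1 r2 c : ℝ} (h0 : l0 ≤ r0) (h1 : l1 ≤ r1) (h2 : l2 ≤ r2)
    (hl : l0 + l1 + l2 ≤ c) (hr : c ≤ r0 + r1 + r2) :
    ∃ x0 x1 x2 : ℝ, x0 + x1 + x2 = c ∧ l0 ≤ x0 ∧ x0 ≤ r0 ∧ l1 ≤ x1 ∧ x1 ≤ r1 ∧ l2 ≤ x2 ∧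
      x2 ≤ r2 := by
  by_cases hA : c ≤ r0 + l1 + l2
  · exact ⟨c - l1 - l2, l1, l2, by ring, by linarith, by linarith, le_refl _, h1, le_refl _, h2⟩
  · by_cases hB : c ≤ r0 + r1 + l2
    · exact ⟨r0, c - r0 - l2, l2, by ring, h0, le_refl _, by linarith, by linarith, le_refl _, h2⟩
    · exact ⟨r0, r1, c - r0 - r1, by ring, h0, le_refl _, h1, le_refl _, by linarith, by linarith⟩

/-- Coverage from the nine numbers `β_{ji}` (offsets) and the hub `h`. -/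
theorem dep_of_offsets {m W0 W1 W2 : ℝ} (b01 b02 b10 b12 b20 b21 h0 h1 h2 : ℝ)
    (p01 : 0 ≤ b01) (p02 : 0 ≤ b02) (p10 : 0 ≤ b10) (p12 : 0 ≤ b12) (p20 : 0 ≤ b20)
    (p21 : 0 ≤ b21)
    (hh : h0 + h1 + h2 = m)
    (q0 : 1 - m + W0 ≤ b01 + b02) (q1 : 1 - m + W1 ≤ b10 + b12) (q2 : 1 - m + W2 ≤ b20 + b21)
    (r0 : b01 + b02 + m - 3 ≤ h0) (r1 : b10 + b12 + m - 3 ≤ h1) (r2 : b20 + b21 + m - 3 ≤ h2)
    (s01 : h1 ≤ 2 - b01) (s02 : h2 ≤ 2 - b02) (s10 : h0 ≤ 2 - b10) (s12 : h2 ≤ 2 - b12)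
    (s20 : h0 ≤ 2 - b20) (s21 : h1 ≤ 2 - b21)
    (t01 : b01 + b10 ≤ 4 - m) (t02 : b02 + b20 ≤ 4 - m) (t12 : b12 + b21 ≤ 4 - m) :
    Dep m W0 W1 W2 := by
  refine ⟨m - 3 + b01 + b02, -b01, -b02, -b10, m - 3 + b10 + b12, -b12,
    -b20, -b21, m - 3 + b20 + b21, by ring, by ring, by ring, ?_⟩
  intro v0 v1 v2 hs e0 f0 e1 f1 e2 f2
  by_contra hcon
  rw [not_or, not_or] at hcon
  obtain ⟨hA, hB, hC⟩ := hcon
  -- piece 0 : violated by v0 too small, v1 too large or v2 too large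
  have A : v0 < m - 3 + b01 + b02 ∨ -b01 + 2 < v1 ∨ -b02 + 2 < v2 := by
    by_contra h
    rw [not_or, not_or, not_lt, not_lt, not_lt] at h
    exact hA ⟨h.1, by linarith, by linarith, h.2.1, by linarith, h.2.2⟩
  have B : v1 < m - 3 + b10 + b12 ∨ -b10 + 2 < v0 ∨ -b12 + 2 < v2 := by
    by_contra h
    rw [not_or, not_or, not_lt, not_lt, not_lt] at h
    exact hB ⟨by linarith, h.2.1, h.1, by linarith, by linarith, h.2.2⟩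
  have C : v2 < m - 3 + b20 + b21 ∨ -b20 + 2 < v0 ∨ -b21 + 2 < v1 := by
    by_contra h
    rw [not_or, not_or, not_lt, not_lt, not_lt] at h
    exact hC ⟨by linarith, h.2.1, by linarith, h.2.2, h.1, by linarith⟩
  rcases A with A | A | A <;> rcases B with B | B | B <;> rcases C with C | C | C <;> linarith

/-- Splitting three demands `β_j` over the three edges of a triangle with capacity `C`. -/
theorem exists_split {B0 B1 B2 C : ℝ} (h0 : 0 ≤ B0) (h1 : 0 ≤ B1) (h2 : 0 ≤ B2) (hC : 0 ≤ C)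
    (d0 : B0 ≤ 2 * C) (d1 : B1 ≤ 2 * C) (d2 : B2 ≤ 2 * C)
    (e01 : B0 + B1 ≤ 3 * C) (e02 : B0 + B2 ≤ 3 * C) (e12 : B1 + B2 ≤ 3 * C)
    (f : B0 + B1 + B2 ≤ 3 * C) :
    ∃ b01 b02 b10 b12 b20 b21 : ℝ, 0 ≤ b01 ∧ 0 ≤ b02 ∧ 0 ≤ b10 ∧ 0 ≤ b12 ∧ 0 ≤ b20 ∧ 0 ≤ b21 ∧
      b01 + b02 = B0 ∧ b10 + b12 = B1 ∧ b20 + b21 = B2 ∧
      b01 + b10 ≤ C ∧ b02 + b20 ≤ C ∧ b12 + b21 ≤ C := by
  -- x0 = b01, x1 = b12, x2 = b20
  obtain ⟨x0, hx0, hx0', k1, k2, k3⟩ : ∃ x0 : ℝ, 0 ≤ x0 ∧ x0 ≤ B0 ∧ B0 - C ≤ x0 ∧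
      B0 + B2 - 2 * C ≤ x0 ∧ (x0 = 0 ∨ x0 = B0 - C ∨ x0 = B0 + B2 - 2 * C) := by
    rcases le_total 0 (B0 - C) with a | a <;> rcases le_total 0 (B0 + B2 - 2 * C) with b | b <;>
      rcases le_total (B0 - C) (B0 + B2 - 2 * C) with c | c
    · exact ⟨_, b, by linarith, by linarith, le_refl _, Or.inr (Or.inr rfl)⟩
    · exact ⟨_, a, by linarith, le_refl _, by linarith, Or.inr (Or.inl rfl)⟩
    · exact ⟨_, a, by linarith, le_refl _, by linarith, Or.inr (Or.inl rfl)⟩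
    · exact ⟨_, a, by linarith, le_refl _, by linarith, Or.inr (Or.inl rfl)⟩
    · exact ⟨_, b, by linarith, by linarith, le_refl _, Or.inr (Or.inr rfl)⟩
    · exact ⟨_, b, by linarith, by linarith, le_refl _, Or.inr (Or.inr rfl)⟩
    · exact ⟨0, le_refl _, h0, by linarith, by linarith, Or.inl rfl⟩
    · exact ⟨0, le_refl _, h0, by linarith, by linarith, Or.inl rfl⟩
  have hxC : x0 ≤ C := by rcases k3 with k | k | k <;> linarith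
  have hxB : x0 + B1 ≤ 2 * C := by rcases k3 with k | k | k <;> linarith
  obtain ⟨x1, l1, l2, l3⟩ : ∃ x1 : ℝ, 0 ≤ x1 ∧ x0 + B1 - C ≤ x1 ∧
      (x1 = 0 ∨ x1 = x0 + B1 - C) := by
    rcases le_total 0 (x0 + B1 - C) with a | a
    · exact ⟨_, a, le_refl _, Or.inr rfl⟩
    · exact ⟨0, le_refl _, a, Or.inl rfl⟩
  have hy1 : x1 ≤ B1 := by rcases l3 with k | k <;> linarith
  have hyC : x1 ≤ C := by rcases l3 with k | k <;> linarith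
  obtain ⟨x2, n1, n2, n3⟩ : ∃ x2 : ℝ, 0 ≤ x2 ∧ x1 + B2 - C ≤ x2 ∧
      (x2 = 0 ∨ x2 = x1 + B2 - C) := by
    rcases le_total 0 (x1 + B2 - C) with a | a
    · exact ⟨_, a, le_refl _, Or.inr rfl⟩
    · exact ⟨0, le_refl _, a, Or.inl rfl⟩
  have hz2 : x2 ≤ B2 := by rcases n3 with k | k <;> linarith
  have hzC : x2 + B0 - x0 ≤ C := by
    rcases n3 with k | k
    · linarith
    · rcases l3 with k' | k'
      · linarith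
      · linarith
  exact ⟨x0, B0 - x0, B1 - x1, x1, x2, B2 - x2, hx0, by linarith, by linarith, l1, n1,
    by linarith, by ring, by ring, by ring, by linarith, by linarith, by linarith⟩

/-- TTT: cuts on the three top sides. -/
theorem dep_ttt {m W0 W1 W2 : ℝ} (hm : m ≤ 4) (b0 : W0 ≤ m) (b1 : W1 ≤ m) (b2 : W2 ≤ m)
    (d0 : m + W0 ≤ 7) (d1 : m + W1 ≤ 7) (d2 : m + W2 ≤ 7)
    (e01 : m + W0 + W1 ≤ 10) (e02 : m + W0 + W2 ≤ 10) (e12 : m + W1 + W2 ≤ 10)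
    (f : W0 + W1 + W2 ≤ 9) : Dep m W0 W1 W2 := by
  obtain ⟨B0, g0, g0', k0⟩ : ∃ B : ℝ, 0 ≤ B ∧ 1 - m + W0 ≤ B ∧ (B = 0 ∨ B = 1 - m + W0) := by
    rcases le_total 0 (1 - m + W0) with a | a
    · exact ⟨_, a, le_refl _, Or.inr rfl⟩
    · exact ⟨0, le_refl _, a, Or.inl rfl⟩
  obtain ⟨B1, g1, g1', k1⟩ : ∃ B : ℝ, 0 ≤ B ∧ 1 - m + W1 ≤ B ∧ (B = 0 ∨ B = 1 - m + W1) := by
    rcases le_total 0 (1 - m + W1) with a | a
    · exact ⟨_, a, le_refl _, Or.inr rfl⟩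
    · exact ⟨0, le_refl _, a, Or.inl rfl⟩
  obtain ⟨B2, g2, g2', k2⟩ : ∃ B : ℝ, 0 ≤ B ∧ 1 - m + W2 ≤ B ∧ (B = 0 ∨ B = 1 - m + W2) := by
    rcases le_total 0 (1 - m + W2) with a | a
    · exact ⟨_, a, le_refl _, Or.inr rfl⟩
    · exact ⟨0, le_refl _, a, Or.inl rfl⟩
  have o0 : B0 ≤ 1 := by rcases k0 with k | k <;> linarith
  have o1 : B1 ≤ 1 := by rcases k1 with k | k <;> linarith
  have o2 : B2 ≤ 1 := by rcases k2 with k | k <;> linarith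
  have hF : B0 + B1 + B2 ≤ 3 * (4 - m) := by
    rcases k0 with k | k <;> rcases k1 with k' | k' <;> rcases k2 with k'' | k'' <;> linarith
  obtain ⟨b01, b02, b10, b12, b20, b21, p01, p02, p10, p12, p20, p21, s0, s1, s2, c01, c02, c12⟩ :=
    exists_split (B0 := B0) (B1 := B1) (B2 := B2) (C := 4 - m) g0 g1 g2 (by linarith)
      (by rcases k0 with k | k <;> linarith) (by rcases k1 with k | k <;> linarith)
      (by rcases k2 with k | k <;> linarith)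
      (by rcases k0 with k | k <;> rcases k1 with k' | k' <;> linarith)
      (by rcases k0 with k | k <;> rcases k2 with k' | k' <;> linarith)
      (by rcases k1 with k | k <;> rcases k2 with k' | k' <;> linarith) hF
  -- hub
  obtain ⟨M0, u0, u0', w0⟩ : ∃ M : ℝ, b10 ≤ M ∧ b20 ≤ M ∧ (M = b10 ∨ M = b20) := by
    rcases le_total b10 b20 with a | a
    · exact ⟨_, a, le_refl _, Or.inr rfl⟩
    · exact ⟨_, le_refl _, a, Or.inl rfl⟩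
  obtain ⟨M1, u1, u1', w1⟩ : ∃ M : ℝ, b01 ≤ M ∧ b21 ≤ M ∧ (M = b01 ∨ M = b21) := by
    rcases le_total b01 b21 with a | a
    · exact ⟨_, a, le_refl _, Or.inr rfl⟩
    · exact ⟨_, le_refl _, a, Or.inl rfl⟩
  obtain ⟨M2, u2, u2', w2⟩ : ∃ M : ℝ, b02 ≤ M ∧ b12 ≤ M ∧ (M = b02 ∨ M = b12) := by
    rcases le_total b02 b12 with a | a
    · exact ⟨_, a, le_refl _, Or.inr rfl⟩
    · exact ⟨_, le_refl _, a, Or.inl rfl⟩
  have hM0 : M0 ≤ 1 ∧ M0 ≤ 4 - m := by rcases w0 with w | w <;> constructor <;> linarith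
  have hM1 : M1 ≤ 1 ∧ M1 ≤ 4 - m := by rcases w1 with w | w <;> constructor <;> linarith
  have hM2 : M2 ≤ 1 ∧ M2 ≤ 4 - m := by rcases w2 with w | w <;> constructor <;> linarith
  have hlow : (B0 + m - 3) + (B1 + m - 3) + (B2 + m - 3) ≤ m := by
    rcases le_total m 3 with q | q <;> linarith
  have hup : m ≤ (2 - M0) + (2 - M1) + (2 - M2) := by
    rcases le_total m 3 with q | q
    · linarith [hM0.1, hM1.1, hM2.1]
    · linarith [hM0.2, hM1.2, hM2.2]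
  have z0 : B0 + m - 3 ≤ 2 - M0 := by
    rcases le_total m 3 with q | q
    · linarith [hM0.1]
    · linarith [hM0.2]
  have z1 : B1 + m - 3 ≤ 2 - M1 := by
    rcases le_total m 3 with q | q
    · linarith [hM1.1]
    · linarith [hM1.2]
  have z2 : B2 + m - 3 ≤ 2 - M2 := by
    rcases le_total m 3 with q | q
    · linarith [hM2.1]
    · linarith [hM2.2]
  obtain ⟨h0, h1, h2, hs, x0, x0', x1, x1', x2, x2'⟩ := exists_sum z0 z1 z2 hlow hup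
  exact dep_of_offsets b01 b02 b10 b12 b20 b21 h0 h1 h2 p01 p02 p10 p12 p20 p21 hs
    (by linarith) (by linarith) (by linarith) (by linarith) (by linarith) (by linarith)
    (by linarith) (by linarith) (by linarith) (by linarith) (by linarith) (by linarith)
    c01 c02 c12

/-- ROW along the strip `0`. -/
theorem dep_row {m W0 W1 W2 : ℝ} (hW0 : 0 ≤ W0) (h2 : W0 ≤ 2) (h01 : W0 + W1 ≤ 6)
    (h02 : W0 + W2 ≤ 6) (hm : m + W0 / 2 ≤ 6) (hs : W0 + W1 + W2 - m + W0 / 2 ≤ 6) :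
    Dep m W0 W1 W2 := by
  -- δ = 2 - W0/2, α0 = W0/2 - 1, α1 ∈ [W1 - 2 - 2δ, 0], α2 ∈ [W2 - 2, 2δ]
  obtain ⟨x0, x1, x2, hx, q0, q0', q1, q1', q2, q2'⟩ := exists_sum (l0 := 0) (r0 := 0)
    (l1 := W1 - 6 + W0) (r1 := 0) (l2 := W2 - 2) (r2 := 4 - W0) (c := m - 2 - W0 / 2)
    (le_refl _) (by linarith) (by linarith) (by linarith) (by linarith)
  have hx0 : x0 = 0 := le_antisymm q0' q0
  refine ⟨W0 / 2 - 1, x1, x2, W0 / 2 - 1, x1 + (2 - W0 / 2), x2 - (2 - W0 / 2),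
    W0 / 2 - 1, x1 + 2 * (2 - W0 / 2), x2 - 2 * (2 - W0 / 2), by linarith, by linarith,
    by linarith, ?_⟩
  intro v0 v1 v2 hv e0 f0 e1 f1 e2 f2
  by_contra hcon
  rw [not_or, not_or] at hcon
  obtain ⟨hA, hB, hC⟩ := hcon
  have A : x1 + 2 < v1 ∨ v2 < x2 := by
    by_contra h
    rw [not_or, not_lt, not_lt] at h
    exact hA ⟨by linarith, by linarith, by linarith, h.1, h.2, by linarith⟩
  have C : v1 < x1 + 2 * (2 - W0 / 2) ∨ x2 - 2 * (2 - W0 / 2) + 2 < v2 := by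
    by_contra h
    rw [not_or, not_lt, not_lt] at h
    exact hC ⟨by linarith, by linarith, h.1, by linarith, by linarith, h.2⟩
  apply hB
  refine ⟨by linarith, by linarith, ?_, ?_, ?_, ?_⟩ <;> rcases A with A | A <;>
    rcases C with C | C <;> linarith

/-- Tight hexagons (`W_i ≤ m`, `W_i ≤ p - m`) with moderate widths. -/
theorem dep_TB {m W0 W1 W2 : ℝ} (b0 : W0 ≤ m) (b1 : W1 ≤ m) (b2 : W2 ≤ m)
    (t0 : W0 ≤ W0 + W1 + W2 - m) (t1 : W1 ≤ W0 + W1 + W2 - m) (t2 : W2 ≤ W0 + W1 + W2 - m)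
    (hp : W0 + W1 + W2 ≤ 8)
    (d0 : (W0 + W1 + W2) / 2 + W0 ≤ 7) (d1 : (W0 + W1 + W2) / 2 + W1 ≤ 7)
    (d2 : (W0 + W1 + W2) / 2 + W2 ≤ 7)
    (e01 : (W0 + W1 + W2) / 2 + W0 + W1 ≤ 10) (e02 : (W0 + W1 + W2) / 2 + W0 + W2 ≤ 10)
    (e12 : (W0 + W1 + W2) / 2 + W1 + W2 ≤ 10) : Dep m W0 W1 W2 := by
  rcases le_total m (W0 + W1 + W2 - m) with c | c
  · exact dep_ttt (by linarith) b0 b1 b2 (by linarith) (by linarith) (by linarith) (by linarith)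
      (by linarith) (by linarith) (by linarith)
  · apply Dep.mirror
    exact dep_ttt (by linarith) t0 t1 t2 (by linarith) (by linarith) (by linarith) (by linarith)
      (by linarith) (by linarith) (by linarith)

theorem dep_R {m W0 W1 W2 : ℝ} (b1 : W1 ≤ m) (b2 : W2 ≤ m)
    (t1 : W1 ≤ W0 + W1 + W2 - m) (t2 : W2 ≤ W0 + W1 + W2 - m) (n0 : 0 ≤ W0)
    (h2 : W0 ≤ 2) (h01 : W0 + W1 ≤ 6) (h02 : W0 + W2 ≤ 6)
    (hmin : 3 / 2 * W0 + W1 ≤ 6 ∨ 3 / 2 * W0 + W2 ≤ 6) : Dep m W0 W1 W2 := by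
  apply dep_row n0 h2 h01 h02
  · rcases hmin with h | h <;> linarith
  · rcases hmin with h | h <;> linarith

end H56NH
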