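import Pool.Agent.H56.NH.Sel

set_option autoImplicit false
open scoped Pointwise

namespace H56NH

/-- In every direction at most one family (the owner) is wide. -/
theorem owner {E : Type*} {n : ℕ} (hn : 2 ≤ n) (F : Fin n → Set E) (hF : ∀ i, (F i).Nonempty)
    (f : E → ℝ) (w : ℝ)
    (hc : ∀ i j : Fin n, i ≠ j → ∀ a ∈ F i, ∀ b ∈ F j, f a - f b ≤ w) :
    ∃ (o : Fin n) (x : ℝ), 0 ≤ x ∧ (∀ i j, ∀ a ∈ F i, ∀ b ∈ F j, f a - f b ≤ w + x) ∧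
      (∀ i j, i ≠ o → j ≠ o → ∀ a ∈ F i, ∀ b ∈ F j, f a - f b ≤ w - x) := by
  classical
  set D : Set ℝ := {t | ∃ i j, ∃ a ∈ F i, ∃ b ∈ F j, t = f a - f b} with hD
  have hother : ∀ i : Fin n, ∃ j, j ≠ i := by
    intro i
    by_cases h : i = ⟨0, by omega⟩
    · exact ⟨⟨1, by omega⟩, by rw [h]; simp [Fin.ext_iff]⟩
    · exact ⟨⟨0, by omega⟩, fun h' => h h'.symm⟩
  have hw : ∀ i j, ∀ a ∈ F i, ∀ b ∈ F j, f a - f b ≤ 2 * w := by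
    intro i j a ha b hb
    by_cases hij : i = j
    · obtain ⟨k, hk⟩ := hother i
      obtain ⟨c, hcc⟩ := hF k
      have h1 := hc i k hk.symm a ha c hcc
      have h2 := hc k j (by rw [← hij]; exact hk) c hcc b hb
      linarith
    · have h1 := hc i j hij a ha b hb
      have h2 := hc j i (Ne.symm hij) b hb a ha
      linarith
  have hbdd : BddAbove D := ⟨2 * w, by rintro t ⟨i, j, a, ha, b, hb, rfl⟩; exact hw i j a ha b hb⟩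
  have hle : ∀ i j, ∀ a ∈ F i, ∀ b ∈ F j, f a - f b ≤ sSup D := fun i j a ha b hb =>
    le_csSup hbdd ⟨i, j, a, ha, b, hb, rfl⟩
  obtain ⟨a0, ha0⟩ := hF ⟨0, by omega⟩
  have hne : D.Nonempty := ⟨f a0 - f a0, ⟨0, by omega⟩, ⟨0, by omega⟩, a0, ha0, a0, ha0, rfl⟩
  by_cases hs : sSup D ≤ w
  · exact ⟨⟨0, by omega⟩, 0, le_refl _, fun i j a ha b hb => by linarith [hle i j a ha b hb],
      fun i j _ _ a ha b hb => by linarith [hle i j a ha b hb]⟩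
  · rw [not_le] at hs
    obtain ⟨t, ⟨i, j, a, ha, b, hb, rfl⟩, ht⟩ := exists_lt_of_lt_csSup hne hs
    have hij : i = j := by
      by_contra h
      have := hc i j h a ha b hb
      linarith
    subst hij
    refine ⟨i, sSup D - w, by linarith, fun i' j' a' ha' b' hb' => by
      linarith [hle i' j' a' ha' b' hb'], ?_⟩
    intro k l hk hl c hcc d hd
    have key : ∀ i' j', ∀ a' ∈ F i', ∀ b' ∈ F j', w < f a' - f b' → i' = i ∧ j' = i := by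
      intro i' j' a' ha' b' hb' h'
      have e : i' = j' := by
        by_contra h
        have := hc i' j' h a' ha' b' hb'
        linarith
      subst e
      have : i' = i := by
        by_contra h
        have h1 := hc i' i h a' ha' b hb
        have h2 := hc i i' (Ne.symm h) a ha b' hb'
        linarith
      exact ⟨this, this⟩
    have hcd : f c - f d ≤ 2 * w - (f a - f b) := by
      have h1 := hc k i hk c hcc b hb
      have h2 := hc i l (Ne.symm hl) a ha d hd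
      linarith
    have : sSup D ≤ 2 * w - (f c - f d) := by
      apply csSup_le hne
      rintro t ⟨i', j', a', ha', b', hb', rfl⟩
      by_cases h' : w < f a' - f b'
      · obtain ⟨e1, e2⟩ := key i' j' a' ha' b' hb' h'
        subst e1
        subst e2
        have h1 := hc k j' hk c hcc b' hb'
        have h2 := hc j' l (Ne.symm hl) a' ha' d hd
        linarith
      · rw [not_lt] at h'
        linarith
    linarith

/-- The cover in the plane of the three functionals. -/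
theorem bounds_cover {E : Type*} (f0 f1 f2 : E → ℝ) (hs : ∀ x, f0 x + f1 x + f2 x = 0)
    (U : Set E) (hU : U.Nonempty) (B0 B1 B2 : ℝ)
    (h0 : ∀ a ∈ U, ∀ b ∈ U, f0 a - f0 b ≤ B0) (h1 : ∀ a ∈ U, ∀ b ∈ U, f1 a - f1 b ≤ B1)
    (h2 : ∀ a ∈ U, ∀ b ∈ U, f2 a - f2 b ≤ B2) (hB : TB B0 B1 B2 ∨ RR B0 B1 B2) :
    ∃ a0 a1 a2 b0 b1 b2 c0 c1 c2 : ℝ, a0 + a1 + a2 = 0 ∧ b0 + b1 + b2 = 0 ∧ c0 + c1 + c2 = 0 ∧
      ∀ z ∈ U, (|a0 - f0 z| ≤ 1 ∧ |a1 - f1 z| ≤ 1 ∧ |a2 - f2 z| ≤ 1) ∨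
        (|b0 - f0 z| ≤ 1 ∧ |b1 - f1 z| ≤ 1 ∧ |b2 - f2 z| ≤ 1) ∨
        (|c0 - f0 z| ≤ 1 ∧ |c1 - f1 z| ≤ 1 ∧ |c2 - f2 z| ≤ 1) := by
  obtain ⟨z0, hz0⟩ := hU
  -- least upper and greatest lower bounds
  have ext : ∀ (g : E → ℝ) (B : ℝ), (∀ a ∈ U, ∀ b ∈ U, g a - g b ≤ B) →
      ∃ l r : ℝ, (∀ a ∈ U, l ≤ g a ∧ g a ≤ r) ∧ r - l ≤ B ∧ 0 ≤ r - l ∧
        (∀ t, (∀ a ∈ U, t ≤ g a) → t ≤ l) ∧ (∀ t, (∀ a ∈ U, g a ≤ t) → r ≤ t) := by
    intro g B hg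
    have ne : (g '' U).Nonempty := ⟨g z0, z0, hz0, rfl⟩
    have ba : BddAbove (g '' U) := ⟨g z0 + B, by
      rintro t ⟨a, ha, rfl⟩; linarith [hg a ha z0 hz0]⟩
    have bb : BddBelow (g '' U) := ⟨g z0 - B, by
      rintro t ⟨a, ha, rfl⟩; linarith [hg z0 hz0 a ha]⟩
    have p1 : ∀ a ∈ U, sInf (g '' U) ≤ g a := fun a ha => csInf_le bb ⟨a, ha, rfl⟩
    have p2 : ∀ a ∈ U, g a ≤ sSup (g '' U) := fun a ha => le_csSup ba ⟨a, ha, rfl⟩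
    refine ⟨sInf (g '' U), sSup (g '' U), fun a ha => ⟨p1 a ha, p2 a ha⟩, ?_, ?_, ?_, ?_⟩
    · have : sSup (g '' U) ≤ sInf (g '' U) + B := by
        apply csSup_le ne
        rintro t ⟨a, ha, rfl⟩
        have : g a - B ≤ sInf (g '' U) := by
          apply le_csInf ne
          rintro s ⟨b, hb, rfl⟩
          linarith [hg a ha b hb]
        linarith
      linarith
    · linarith [p1 z0 hz0, p2 z0 hz0]
    · intro t ht
      apply le_csInf ne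
      rintro s ⟨b, hb, rfl⟩
      exact ht b hb
    · intro t ht
      apply csSup_le ne
      rintro s ⟨b, hb, rfl⟩
      exact ht b hb
  obtain ⟨l0, r0, m0, w0, n0, i0, s0⟩ := ext f0 B0 h0
  obtain ⟨l1, r1, m1, w1, n1, i1, s1⟩ := ext f1 B1 h1
  obtain ⟨l2, r2, m2, w2, n2, i2, s2⟩ := ext f2 B2 h2
  have hm : ∀ z ∈ U, (l0 ≤ f0 z ∧ f0 z ≤ r0) ∧ (l1 ≤ f1 z ∧ f1 z ≤ r1) ∧
      (l2 ≤ f2 z ∧ f2 z ≤ r2) := fun z hz => ⟨m0 z hz, m1 z hz, m2 z hz⟩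
  have b0 : -r1 - r2 ≤ l0 := i0 _ fun a ha => by
    obtain ⟨⟨_, _⟩, ⟨_, _⟩, ⟨_, _⟩⟩ := hm a ha; linarith [hs a]
  have b1 : -r0 - r2 ≤ l1 := i1 _ fun a ha => by
    obtain ⟨⟨_, _⟩, ⟨_, _⟩, ⟨_, _⟩⟩ := hm a ha; linarith [hs a]
  have b2 : -r0 - r1 ≤ l2 := i2 _ fun a ha => by
    obtain ⟨⟨_, _⟩, ⟨_, _⟩, ⟨_, _⟩⟩ := hm a ha; linarith [hs a]
  have t0 : r0 ≤ -l1 - l2 := s0 _ fun a ha => by
    obtain ⟨⟨_, _⟩, ⟨_, _⟩, ⟨_, _⟩⟩ := hm a ha; linarith [hs a]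
  have t1 : r1 ≤ -l0 - l2 := s1 _ fun a ha => by
    obtain ⟨⟨_, _⟩, ⟨_, _⟩, ⟨_, _⟩⟩ := hm a ha; linarith [hs a]
  have t2 : r2 ≤ -l0 - l1 := s2 _ fun a ha => by
    obtain ⟨⟨_, _⟩, ⟨_, _⟩, ⟨_, _⟩⟩ := hm a ha; linarith [hs a]
  have hdep : Dep (r0 + r1 + r2) (r0 - l0) (r1 - l1) (r2 - l2) := by
    rcases hB with ⟨g1, g2, g3, g4, g5, g6, g7⟩ | ⟨g1, g2, g3, g4⟩
    · exact dep_TB (by linarith) (by linarith) (by linarith) (by linarith) (by linarith)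
        (by linarith) (by linarith) (by linarith) (by linarith) (by linarith) (by linarith)
        (by linarith) (by linarith)
    · exact dep_R (by linarith) (by linarith) (by linarith) (by linarith) n0 (by linarith)
        (by linarith) (by linarith)
        (by rcases g4 with g | g
            · exact Or.inl (by linarith)
            · exact Or.inr (by linarith))
  obtain ⟨a0, a1, a2, b0', b1', b2', c0, c1, c2, ha, hb, hc, h⟩ := hdep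
  refine ⟨r0 - a0 - 1, r1 - a1 - 1, r2 - a2 - 1, r0 - b0' - 1, r1 - b1' - 1, r2 - b2' - 1,
    r0 - c0 - 1, r1 - c1 - 1, r2 - c2 - 1, by linarith, by linarith, by linarith, ?_⟩
  intro z hz
  obtain ⟨⟨q1, q2⟩, ⟨q3, q4⟩, ⟨q5, q6⟩⟩ := hm z hz
  rcases h (r0 - f0 z) (r1 - f1 z) (r2 - f2 z) (by linarith [hs z]) (by linarith) (by linarith)
    (by linarith) (by linarith) (by linarith) (by linarith) with
      ⟨e1, e2, e3, e4, e5, e6⟩ | ⟨e1, e2, e3, e4, e5, e6⟩ | ⟨e1, e2, e3, e4, e5, e6⟩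
  · refine Or.inl ⟨?_, ?_, ?_⟩ <;> rw [abs_le] <;> constructor <;> linarith
  · refine Or.inr (Or.inl ⟨?_, ?_, ?_⟩) <;> rw [abs_le] <;> constructor <;> linarith
  · refine Or.inr (Or.inr ⟨?_, ?_, ?_⟩) <;> rw [abs_le] <;> constructor <;> linarith

/-- Three points. -/
theorem three_points {E : Type*} [AddCommGroup E] [Module ℝ E] (f0 f1 f2 : E →ₗ[ℝ] ℝ)
    (hs : ∀ x, f0 x + f1 x + f2 x = 0) (hsurj : ∀ s t : ℝ, ∃ p : E, f0 p = s ∧ f1 p = t)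
    (K : Set E) (c : E)
    (hHex : ∀ x : E, |f0 (x - c)| ≤ 1 → |f1 (x - c)| ≤ 1 → |f2 (x - c)| ≤ 1 → x ∈ K)
    (U : Set E) (B0 B1 B2 : ℝ)
    (h0 : ∀ a ∈ U, ∀ b ∈ U, f0 a - f0 b ≤ B0) (h1 : ∀ a ∈ U, ∀ b ∈ U, f1 a - f1 b ≤ B1)
    (h2 : ∀ a ∈ U, ∀ b ∈ U, f2 a - f2 b ≤ B2) (hB : TB B0 B1 B2 ∨ RR B0 B1 B2) :
    ∃ P : Finset E, P.card ≤ 3 ∧ ∀ a ∈ U, ∃ p ∈ P, p ∈ a +ᵥ K := by
  classical
  by_cases hU : U.Nonempty
  swap
  · rw [Set.not_nonempty_iff_eq_empty] at hU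
    exact ⟨∅, by simp, by simp [hU]⟩
  obtain ⟨a0, a1, a2, b0, b1, b2, c0, c1, c2, ha, hb, hc, h⟩ :=
    bounds_cover f0 f1 f2 hs U hU B0 B1 B2 h0 h1 h2 hB
  have pt : ∀ x0 x1 x2 : ℝ, x0 + x1 + x2 = 0 → ∃ p : E, ∀ z : E, |x0 - f0 z| ≤ 1 →
      |x1 - f1 z| ≤ 1 → |x2 - f2 z| ≤ 1 → p ∈ z +ᵥ K := by
    intro x0 x1 x2 hx
    obtain ⟨p, hp0, hp1⟩ := hsurj (x0 + f0 c) (x1 + f1 c)
    have hp2 : f2 p = x2 + f2 c := by linarith [hs p, hs c]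
    refine ⟨p, fun z g0 g1 g2 => ?_⟩
    rw [Set.mem_vadd_set]
    refine ⟨p - z, hHex _ ?_ ?_ ?_, ?_⟩
    · rw [map_sub, map_sub, hp0]; convert g0 using 2; ring
    · rw [map_sub, map_sub, hp1]; convert g1 using 2; ring
    · rw [map_sub, map_sub, hp2]; convert g2 using 2; ring
    · rw [vadd_eq_add]; abel
  obtain ⟨p, hp⟩ := pt a0 a1 a2 ha
  obtain ⟨q, hq⟩ := pt b0 b1 b2 hb
  obtain ⟨r, hr⟩ := pt c0 c1 c2 hc
  refine ⟨{p, q, r}, Finset.card_le_three, ?_⟩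
  intro z hz
  rcases h z hz with ⟨e0, e1, e2⟩ | ⟨e0, e1, e2⟩ | ⟨e0, e1, e2⟩
  · exact ⟨p, by simp, hp z e0 e1 e2⟩
  · exact ⟨q, by simp, hq z e0 e1 e2⟩
  · exact ⟨r, by simp, hr z e0 e1 e2⟩

/-- Main theorem for a vector space with two functionals in general position. -/
theorem main {E : Type*} [AddCommGroup E] [Module ℝ E] (f0 f1 f2 : E →ₗ[ℝ] ℝ)
    (hs : ∀ x, f0 x + f1 x + f2 x = 0) (hsurj : ∀ s t : ℝ, ∃ p : E, f0 p = s ∧ f1 p = t)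
    (K : Set E) (c : E)
    (hHex : ∀ x : E, |f0 (x - c)| ≤ 1 → |f1 (x - c)| ≤ 1 → |f2 (x - c)| ≤ 1 → x ∈ K)
    (w0 w1 w2 : ℝ)
    (hw0 : ∀ x ∈ K, ∀ y ∈ K, f0 x - f0 y ≤ w0) (hw1 : ∀ x ∈ K, ∀ y ∈ K, f1 x - f1 y ≤ w1)
    (hw2 : ∀ x ∈ K, ∀ y ∈ K, f2 x - f2 y ≤ w2) (hw : w0 + w1 + w2 ≤ 36 / 5)
    {n : ℕ} (hn : 2 ≤ n) (F : Fin n → Set E) (hF : ∀ i, (F i).Nonempty)
    (hint : ∀ i j : Fin n, i ≠ j → ∀ a ∈ F i, ∀ b ∈ F j, ((a +ᵥ K) ∩ (b +ᵥ K)).Nonempty) :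
    ∃ m : Fin n, ∃ P : Finset E, P.card ≤ 3 ∧
      ∀ i : Fin n, i ≠ m → ∀ a ∈ F i, ∃ p ∈ P, p ∈ a +ᵥ K := by
  classical
  have cross : ∀ (g : E →ₗ[ℝ] ℝ) (w : ℝ), (∀ x ∈ K, ∀ y ∈ K, g x - g y ≤ w) →
      ∀ i j : Fin n, i ≠ j → ∀ a ∈ F i, ∀ b ∈ F j, g a - g b ≤ w := by
    intro g w hg i j hij a ha b hb
    obtain ⟨z, hz1, hz2⟩ := hint i j hij a ha b hb
    rw [Set.mem_vadd_set] at hz1 hz2
    obtain ⟨x, hx, rfl⟩ := hz1
    obtain ⟨y, hy, hxy⟩ := hz2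
    rw [vadd_eq_add, vadd_eq_add] at hxy
    have h := hg y hy x hx
    have e : g b + g y = g a + g x := by rw [← map_add, ← map_add, hxy]
    linarith
  -- the hexagon has widths 2
  have hpt : ∀ x0 x1 x2 : ℝ, x0 + x1 + x2 = 0 → |x0| ≤ 1 → |x1| ≤ 1 → |x2| ≤ 1 →
      ∃ p ∈ K, f0 p = x0 + f0 c ∧ f1 p = x1 + f1 c ∧ f2 p = x2 + f2 c := by
    intro x0 x1 x2 hx e0 e1 e2
    obtain ⟨p, hp0, hp1⟩ := hsurj (x0 + f0 c) (x1 + f1 c)
    have hp2 : f2 p = x2 + f2 c := by linarith [hs p, hs c]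
    refine ⟨p, hHex p ?_ ?_ ?_, hp0, hp1, hp2⟩
    · rw [map_sub, hp0]; convert e0 using 2; ring
    · rw [map_sub, hp1]; convert e1 using 2; ring
    · rw [map_sub, hp2]; convert e2 using 2; ring
  have y0 : 2 ≤ w0 := by
    obtain ⟨p, hp, e0, _, _⟩ := hpt 1 (-1) 0 (by norm_num) (by norm_num) (by norm_num) (by norm_num)
    obtain ⟨q, hq, g0, _, _⟩ := hpt (-1) 1 0 (by norm_num) (by norm_num) (by norm_num) (by norm_num)
    have := hw0 p hp q hq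
    rw [e0, g0] at this; linarith
  have y1 : 2 ≤ w1 := by
    obtain ⟨p, hp, _, e0, _⟩ := hpt (-1) 1 0 (by norm_num) (by norm_num) (by norm_num) (by norm_num)
    obtain ⟨q, hq, _, g0, _⟩ := hpt 1 (-1) 0 (by norm_num) (by norm_num) (by norm_num) (by norm_num)
    have := hw1 p hp q hq
    rw [e0, g0] at this; linarith
  have y2 : 2 ≤ w2 := by
    obtain ⟨p, hp, _, _, e0⟩ := hpt (-1) 0 1 (by norm_num) (by norm_num) (by norm_num) (by norm_num)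
    obtain ⟨q, hq, _, _, g0⟩ := hpt 1 0 (-1) (by norm_num) (by norm_num) (by norm_num) (by norm_num)
    have := hw2 p hp q hq
    rw [e0, g0] at this; linarith
  obtain ⟨o0, x0, hx0, A0, C0⟩ := owner hn F hF (fun x => f0 x) w0 (cross f0 w0 hw0)
  obtain ⟨o1, x1, hx1, A1, C1⟩ := owner hn F hF (fun x => f1 x) w1 (cross f1 w1 hw1)
  obtain ⟨o2, x2, hx2, A2, C2⟩ := owner hn F hF (fun x => f2 x) w2 (cross f2 w2 hw2)
  have fin : ∀ (m : Fin n) (g0 g1 g2 : E →ₗ[ℝ] ℝ) (B0 B1 B2 : ℝ),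
      (∀ x, g0 x + g1 x + g2 x = 0) → (∀ s t : ℝ, ∃ p : E, g0 p = s ∧ g1 p = t) →
      (∀ x : E, |g0 (x - c)| ≤ 1 → |g1 (x - c)| ≤ 1 → |g2 (x - c)| ≤ 1 → x ∈ K) →
      (∀ i j, i ≠ m → j ≠ m → ∀ a ∈ F i, ∀ b ∈ F j, g0 a - g0 b ≤ B0) →
      (∀ i j, i ≠ m → j ≠ m → ∀ a ∈ F i, ∀ b ∈ F j, g1 a - g1 b ≤ B1) →
      (∀ i j, i ≠ m → j ≠ m → ∀ a ∈ F i, ∀ b ∈ F j, g2 a - g2 b ≤ B2) →
      (TB B0 B1 B2 ∨ RR B0 B1 B2) →
      ∃ m : Fin n, ∃ P : Finset E, P.card ≤ 3 ∧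
        ∀ i : Fin n, i ≠ m → ∀ a ∈ F i, ∃ p ∈ P, p ∈ a +ᵥ K := by
    intro m g0 g1 g2 B0 B1 B2 hs' hsurj' hHex' k0 k1 k2 hB
    obtain ⟨P, hP, hP'⟩ := three_points g0 g1 g2 hs' hsurj' K c hHex'
      {a | ∃ i, i ≠ m ∧ a ∈ F i} B0 B1 B2
      (by rintro a ⟨i, hi, ha⟩ b ⟨j, hj, hb⟩; exact k0 i j hi hj a ha b hb)
      (by rintro a ⟨i, hi, ha⟩ b ⟨j, hj, hb⟩; exact k1 i j hi hj a ha b hb)
      (by rintro a ⟨i, hi, ha⟩ b ⟨j, hj, hb⟩; exact k2 i j hi hj a ha b hb) hB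
    exact ⟨m, P, hP, fun i hi a ha => hP' a ⟨i, hi, ha⟩⟩
  have hsel := select (y0 := w0 - 2) (y1 := w1 - 2) (y2 := w2 - 2) (x0 := x0) (x1 := x1)
    (x2 := x2) (by linarith) (by linarith) (by linarith) hx0 hx1 hx2 (by linarith)
  rcases hsel with h | h | h
  · refine fin o0 f0 f1 f2 _ _ _ hs hsurj hHex ?_ ?_ ?_ h
    · intro i j hi hj a ha b hb
      have := C0 i j hi hj a ha b hb
      linarith
    · intro i j _ _ a ha b hb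
      have := A1 i j a ha b hb
      linarith
    · intro i j _ _ a ha b hb
      have := A2 i j a ha b hb
      linarith
  · refine fin o1 f1 f0 f2 _ _ _ (fun x => by linarith [hs x]) ?_ ?_ ?_ ?_ ?_ h
    · intro s t
      obtain ⟨p, hp, hq⟩ := hsurj t s
      exact ⟨p, hq, hp⟩
    · intro x e1 e0 e2
      exact hHex x e0 e1 e2
    · intro i j hi hj a ha b hb
      have := C1 i j hi hj a ha b hb
      linarith
    · intro i j _ _ a ha b hb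
      have := A0 i j a ha b hb
      linarith
    · intro i j _ _ a ha b hb
      have := A2 i j a ha b hb
      linarith
  · refine fin o2 f2 f0 f1 _ _ _ (fun x => by linarith [hs x]) ?_ ?_ ?_ ?_ ?_ h
    · intro s t
      obtain ⟨p, hp, hq⟩ := hsurj t (-s - t)
      exact ⟨p, by linarith [hs p], hp⟩
    · intro x e2 e0 e1
      exact hHex x e0 e1 e2
    · intro i j hi hj a ha b hb
      have := C2 i j hi hj a ha b hb
      linarith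
    · intro i j _ _ a ha b hb
      have := A0 i j a ha b hb
      linarith
    · intro i j _ _ a ha b hb
      have := A1 i j a ha b hb
      linarith

end H56NH
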