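import Pool.Agent.H56.NH.Fam

/-!
# Colourful piercing of translates of a plane set close to an affine-regular hexagon

`K` contains the hexagon `H = {x : |f i (x - c)| ≤ 1, i = 0, 1, 2}` with `f 0 + f 1 + f 2 = 0`, and the
three widths of `K` in the directions `f i` sum to at most `36 / 5` (for `H` itself the sum is `6`).
For each `i` all families but one (the owner of the direction) have translation vectors with `f i`-range
in an interval of length `w i - x i`, all of them in an interval of length `w i + x i`. One of the three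
owners is removed (`H56NH.select`), and the translation vectors of the others lie in a hexagon with
widths for which three translates of `H` suffice (`H56NH.dep_TB`, `H56NH.dep_R`).
-/

set_option autoImplicit false
open scoped Pointwise

namespace H56NHFin

theorem result :
    ∀ (K : Set (EuclideanSpace ℝ (Fin 2))), IsCompact K →
    ∀ (f : Fin 3 → (EuclideanSpace ℝ (Fin 2) →ₗ[ℝ] ℝ)) (c : EuclideanSpace ℝ (Fin 2))
      (w : Fin 3 → ℝ),
      (∀ x, f 0 x + f 1 x + f 2 x = 0) →
      (∀ x, (∀ i, |f i (x - c)| ≤ 1) → x ∈ K) →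
      (∀ i, ∀ x ∈ K, ∀ y ∈ K, f i x - f i y ≤ w i) →
      w 0 + w 1 + w 2 ≤ 36 / 5 →
    ∀ (n : ℕ), 2 ≤ n →
    ∀ (F : Fin n → Set (EuclideanSpace ℝ (Fin 2))),
      (∀ i, (F i).Nonempty) →
      (∀ i j : Fin n, i ≠ j → ∀ a ∈ F i, ∀ b ∈ F j, ((a +ᵥ K) ∩ (b +ᵥ K)).Nonempty) →
      ∃ m : Fin n, ∃ P : Finset (EuclideanSpace ℝ (Fin 2)), P.card ≤ 3 ∧
        ∀ i : Fin n, i ≠ m → ∀ a ∈ F i, ∃ p ∈ P, p ∈ a +ᵥ K := by
  intro K hK f c w hs hHex hw hsum n hn F hF hint
  -- compactness of `K` makes `f 0` and `f 1` independent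
  have hinj : Function.Injective ((f 0).prod (f 1)) := by
    rw [injective_iff_map_eq_zero]
    intro x hx
    have e0 : f 0 x = 0 := congrArg Prod.fst hx
    have e1 : f 1 x = 0 := congrArg Prod.snd hx
    have e2 : f 2 x = 0 := by linarith [hs x]
    by_contra hne
    obtain ⟨R, hR⟩ := hK.isBounded.exists_norm_le
    have hxn : 0 < ‖x‖ := norm_pos_iff.2 hne
    have hR0 : 0 ≤ R := by
      have hc : c ∈ K := hHex c (by intro i; simp)
      exact le_trans (norm_nonneg _) (hR c hc)
    obtain ⟨t, ht⟩ : ∃ t : ℝ, t = (R + ‖c‖ + 1) / ‖x‖ := ⟨_, rfl⟩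
    have htp : 0 < t := by
      rw [ht]; positivity
    have hmem : c + t • x ∈ K := by
      apply hHex
      intro i
      have : f i (c + t • x - c) = 0 := by
        rw [add_sub_cancel_left, map_smul]
        fin_cases i
        · simp [e0]
        · simp [e1]
        · simp [e2]
      rw [this]; simp
    have h1 := hR _ hmem
    have h2 : ‖t • x‖ ≤ ‖c + t • x‖ + ‖c‖ := by
      have := norm_sub_le (c + t • x) c
      rwa [add_sub_cancel_left] at this
    have h3 : ‖t • x‖ = R + ‖c‖ + 1 := by
      rw [norm_smul, Real.norm_eq_abs, abs_of_pos htp, ht]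
      field_simp
    linarith
  have hsurj' : Function.Surjective ((f 0).prod (f 1)) := by
    have hfr : Module.finrank ℝ (EuclideanSpace ℝ (Fin 2)) = Module.finrank ℝ (ℝ × ℝ) := by
      simp
    exact (LinearMap.injective_iff_surjective_of_finrank_eq_finrank hfr).1 hinj
  have hsurj : ∀ s t : ℝ, ∃ p : EuclideanSpace ℝ (Fin 2), f 0 p = s ∧ f 1 p = t := by
    intro s t
    obtain ⟨p, hp⟩ := hsurj' (s, t)
    exact ⟨p, congrArg Prod.fst hp, congrArg Prod.snd hp⟩
  exact H56NH.main (f 0) (f 1) (f 2) hs hsurj K c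
    (fun x h0 h1 h2 => hHex x (by
      intro i
      fin_cases i
      · exact h0
      · exact h1
      · exact h2))
    (w 0) (w 1) (w 2) (hw 0) (hw 1) (hw 2) hsum hn F hF hint

end H56NHFin
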