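import Pool.Agent.H56.NH.Cov

set_option autoImplicit false

namespace H56NH

/-- Upper bounds on the widths which guarantee a cover with three cuts. -/
def TB (U0 U1 U2 : ℝ) : Prop :=
  U0 + U1 + U2 ≤ 8 ∧ (U0 + U1 + U2) / 2 + U0 ≤ 7 ∧ (U0 + U1 + U2) / 2 + U1 ≤ 7 ∧
    (U0 + U1 + U2) / 2 + U2 ≤ 7 ∧ (U0 + U1 + U2) / 2 + U0 + U1 ≤ 10 ∧
    (U0 + U1 + U2) / 2 + U0 + U2 ≤ 10 ∧ (U0 + U1 + U2) / 2 + U1 + U2 ≤ 10

/-- Upper bounds on the widths which guarantee a cover by a row along strip `0`. -/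
def RR (U0 U1 U2 : ℝ) : Prop :=
  U0 ≤ 2 ∧ U0 + U1 ≤ 6 ∧ U0 + U2 ≤ 6 ∧ (3 / 2 * U0 + U1 ≤ 6 ∨ 3 / 2 * U0 + U2 ≤ 6)

/-- Dropping the owner of direction `k` (excess `xk`, `w_k = 2 + yk`). -/
def GG (yk xk yi xi yj xj : ℝ) : Prop :=
  TB (2 + yk - xk) (2 + yi + xi) (2 + yj + xj) ∨ RR (2 + yk - xk) (2 + yi + xi) (2 + yj + xj)

theorem GG.symm {yk xk yi xi yj xj : ℝ} (h : GG yk xk yi xi yj xj) : GG yk xk yj xj yi xi := by
  rcases h with ⟨h1, h2, h3, h4, h5, h6, h7⟩ | ⟨h1, h2, h3, h4⟩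
  · refine Or.inl ⟨?_, ?_, ?_, ?_, ?_, ?_, ?_⟩ <;> linarith
  · exact Or.inr ⟨h1, h3, h2, h4.symm⟩

theorem caseI {y0 y1 y2 x0 x1 x2 : ℝ} (hy0 : 0 ≤ y0) (hy1 : 0 ≤ y1) (hy2 : 0 ≤ y2)
    (hx0 : 0 ≤ x0) (hx1 : 0 ≤ x1) (hx2 : 0 ≤ x2) (hs : y0 + y1 + y2 ≤ 6 / 5)
    (q0 : x0 ≤ y0) (q1 : x1 ≤ y1) (q2 : x2 ≤ y2)
    (z1 : y1 + 3 / 2 * x1 ≤ y0 + 3 / 2 * x0) (z2 : y2 + 3 / 2 * x2 ≤ y0 + 3 / 2 * x0) :
    GG y0 x0 y1 x1 y2 x2 := by
  refine Or.inl ⟨?_, ?_, ?_, ?_, ?_, ?_, ?_⟩ <;> linarith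

theorem caseII {y0 y1 y2 x0 x1 x2 : ℝ} (hy0 : 0 ≤ y0) (hy1 : 0 ≤ y1) (hy2 : 0 ≤ y2)
    (hx0 : 0 ≤ x0) (hx1 : 0 ≤ x1) (hx2 : 0 ≤ x2) (hs : y0 + y1 + y2 ≤ 6 / 5)
    (q0 : y0 ≤ x0) (h1 : x1 - y1 ≤ x0 - y0) (h2 : x2 - y2 ≤ x0 - y0) :
    GG y0 x0 y1 x1 y2 x2 ∨ GG y1 x1 y0 x0 y2 x2 ∨ GG y2 x2 y0 x0 y1 x1 := by
  by_cases F1 : 2 + (x0 - y0) < y1 + x1
  · right; left
    by_cases c : y1 ≤ x1
    · exact Or.inr ⟨by linarith, by linarith, by linarith, Or.inl (by linarith)⟩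
    · refine Or.inl ⟨?_, ?_, ?_, ?_, ?_, ?_, ?_⟩ <;> linarith
  by_cases F1' : 2 + (x0 - y0) < y2 + x2
  · right; right
    by_cases c : y2 ≤ x2
    · exact Or.inr ⟨by linarith, by linarith, by linarith, Or.inl (by linarith)⟩
    · refine Or.inl ⟨?_, ?_, ?_, ?_, ?_, ?_, ?_⟩ <;> linarith
  by_cases F2 : 1 + 3 / 2 * (x0 - y0) < y1 + x1
  · by_cases F2' : 1 + 3 / 2 * (x0 - y0) < y2 + x2
    · -- both large
      by_cases c1 : y1 ≤ x1
      · rcases le_total (x2 - y2) (x1 - y1) with c | c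
        · right; left
          exact Or.inr ⟨by linarith, by linarith, by linarith, Or.inl (by linarith)⟩
        · right; right
          exact Or.inr ⟨by linarith, by linarith, by linarith, Or.inl (by linarith)⟩
      · by_cases c2 : y2 ≤ x2
        · right; right
          exact Or.inr ⟨by linarith, by linarith, by linarith, Or.inl (by linarith)⟩
        · rcases le_total y2 y1 with c | c
          · right; left
            refine Or.inl ⟨?_, ?_, ?_, ?_, ?_, ?_, ?_⟩ <;> linarith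
          · right; right
            refine Or.inl ⟨?_, ?_, ?_, ?_, ?_, ?_, ?_⟩ <;> linarith
    · left
      exact Or.inr ⟨by linarith, by linarith, by linarith, Or.inr (by linarith)⟩
  · left
    exact Or.inr ⟨by linarith, by linarith, by linarith, Or.inl (by linarith)⟩

theorem select {y0 y1 y2 x0 x1 x2 : ℝ} (hy0 : 0 ≤ y0) (hy1 : 0 ≤ y1) (hy2 : 0 ≤ y2)
    (hx0 : 0 ≤ x0) (hx1 : 0 ≤ x1) (hx2 : 0 ≤ x2) (hs : y0 + y1 + y2 ≤ 6 / 5) :
    GG y0 x0 y1 x1 y2 x2 ∨ GG y1 x1 y0 x0 y2 x2 ∨ GG y2 x2 y0 x0 y1 x1 := by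
  by_cases Q : x0 < y0 ∧ x1 < y1 ∧ x2 < y2
  · obtain ⟨a0, a1, a2⟩ := Q
    rcases le_total (y1 + 3 / 2 * x1) (y0 + 3 / 2 * x0) with c | c
    · rcases le_total (y2 + 3 / 2 * x2) (y0 + 3 / 2 * x0) with d | d
      · left
        exact caseI hy0 hy1 hy2 hx0 hx1 hx2 hs a0.le a1.le a2.le c d
      · right; right
        exact caseI hy2 hy0 hy1 hx2 hx0 hx1 (by linarith) a2.le a0.le a1.le d (by linarith)
    · rcases le_total (y2 + 3 / 2 * x2) (y1 + 3 / 2 * x1) with d | d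
      · right; left
        exact caseI hy1 hy0 hy2 hx1 hx0 hx2 (by linarith) a1.le a0.le a2.le c d
      · right; right
        exact caseI hy2 hy0 hy1 hx2 hx0 hx1 (by linarith) a2.le a0.le a1.le (by linarith) d
  · -- some `x_k ≥ y_k`; take the largest `x_k - y_k`
    have Q' : y0 ≤ x0 ∨ y1 ≤ x1 ∨ y2 ≤ x2 := by
      by_contra h
      rw [not_or, not_or, not_le, not_le, not_le] at h
      exact Q h
    rcases le_total (x1 - y1) (x0 - y0) with c | c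
    · rcases le_total (x2 - y2) (x0 - y0) with d | d
      · exact caseII hy0 hy1 hy2 hx0 hx1 hx2 hs
          (by rcases Q' with h | h | h <;> linarith) c d
      · rcases caseII hy2 hy0 hy1 hx2 hx0 hx1 (by linarith)
          (by rcases Q' with h | h | h <;> linarith) d (by linarith) with h | h | h
        · exact Or.inr (Or.inr h)
        · exact Or.inl h.symm
        · exact Or.inr (Or.inl h.symm)
    · rcases le_total (x2 - y2) (x1 - y1) with d | d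
      · rcases caseII hy1 hy0 hy2 hx1 hx0 hx2 (by linarith)
          (by rcases Q' with h | h | h <;> linarith) c d with h | h | h
        · exact Or.inr (Or.inl h)
        · exact Or.inl h
        · exact Or.inr (Or.inr h.symm)
      · rcases caseII hy2 hy0 hy1 hx2 hx0 hx1 (by linarith)
          (by rcases Q' with h | h | h <;> linarith) (by linarith) d with h | h | h
        · exact Or.inr (Or.inr h)
        · exact Or.inl h.symm
        · exact Or.inr (Or.inl h.symm)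

end H56NH
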